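import Mathlib

set_option autoImplicit false

/-!
# The toric ideal of the matching polytope of a graph on 10 vertices needs a generator of degree 5

For every field the toric ideal of the matching polytope of an explicit graph with 10 vertices and
16 edges is not generated by polynomials of degree at most 4.
-/

namespace Pool.Agent.Results.MP_2a9801_co.DegreeFive

open MvPolynomial

universe u

/-- A matching of `G`: a finite set of edges of `G`, no two of which have a common end. -/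
def IsMatching {V : Type} (G : SimpleGraph V) (M : Finset (Sym2 V)) : Prop :=
  (∀ e ∈ M, e ∈ G.edgeSet) ∧ ∀ e ∈ M, ∀ f ∈ M, e ≠ f → ∀ v : V, ¬ (v ∈ e ∧ v ∈ f)

/-- The matchings of `G`; they are the lattice points of the matching polytope of `G`. -/
abbrev Matching {V : Type} (G : SimpleGraph V) : Type :=
  {M : Finset (Sym2 V) // IsMatching G M}

/-- The homomorphism `π : K[x_M : M a matching of G] → K[t_e, s]`, `x_M ↦ s ∏_{e ∈ M} t_e`.  Here
`s` is the variable `X none` and `t_e` is the variable `X (some e)`. -/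
noncomputable def toricMap (K : Type u) [Field K] {V : Type} (G : SimpleGraph V) :
    MvPolynomial (Matching G) K →ₐ[K] MvPolynomial (Option (Sym2 V)) K :=
  aeval fun M => X none * ∏ e ∈ M.1, X (some e)

/-- The toric ideal of the matching polytope of `G`: the kernel of `π`. -/
noncomputable def toricIdeal (K : Type u) [Field K] {V : Type} (G : SimpleGraph V) :
    Ideal (MvPolynomial (Matching G) K) :=
  RingHom.ker (toricMap K G)

/-! ### Fibres -/

section general

variable {K : Type u} [Field K] {V : Type} {G : SimpleGraph V}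

/-- The exponent of the image of `x_M`. -/
noncomputable def vec (M : Matching G) : Option (Sym2 V) →₀ ℕ :=
  Finsupp.single none 1 + ∑ e ∈ M.1, Finsupp.single (some e) 1

/-- The exponent of the image of a monomial. -/
noncomputable def img : (Matching G →₀ ℕ) →ₗ[ℕ] (Option (Sym2 V) →₀ ℕ) :=
  Finsupp.linearCombination ℕ (vec (G := G))

lemma X_image (M : Matching G) :
    (X none * ∏ e ∈ M.1, X (some e) : MvPolynomial (Option (Sym2 V)) K) = monomial (vec M) 1 := by
  have h1 : (monomial (∑ e ∈ M.1, Finsupp.single (some e) 1) 1 :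
      MvPolynomial (Option (Sym2 V)) K) = ∏ e ∈ M.1, X (some e) := by
    rw [monomial_sum_one]
    rfl
  rw [← h1, vec]
  show monomial (Finsupp.single none 1) 1 * _ = _
  rw [monomial_mul, one_mul]

lemma map_monomial (w : Matching G →₀ ℕ) (c : K) :
    toricMap K G (monomial w c) = monomial (img w) c := by
  unfold toricMap
  rw [aeval_monomial, img, Finsupp.linearCombination_apply, monomial_finsupp_sum_index]
  congr 1
  apply Finsupp.prod_congr
  intro M _
  rw [X_image, monomial_pow, one_pow]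

lemma coeff_map (f : MvPolynomial (Matching G) K) (b : Option (Sym2 V) →₀ ℕ) :
    coeff b (toricMap K G f) =
      by classical exact ∑ w ∈ f.support, if img w = b then coeff w f else 0 := by
  classical
  conv_lhs => rw [f.as_sum]
  rw [map_sum, coeff_sum]
  apply Finset.sum_congr rfl
  intro w _
  rw [map_monomial, coeff_monomial]

/-- If the fibre of a monomial is a singleton then the monomial occurs in no element of the toric
ideal. -/
lemma coeff_eq_zero {f : MvPolynomial (Matching G) K} (hf : f ∈ toricIdeal K G)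
    {v : Matching G →₀ ℕ} (hv : ∀ w : Matching G →₀ ℕ, img w = img v → w = v) :
    coeff v f = 0 := by
  classical
  have h1 : toricMap K G f = 0 := hf
  have h2 := coeff_map f (img v)
  rw [h1, coeff_zero] at h2
  by_contra h3
  have h4 : v ∈ f.support := mem_support_iff.2 h3
  rw [Finset.sum_eq_single v] at h2
  · rw [if_pos rfl] at h2
    exact h3 h2.symm
  · intro w _ hw
    rw [if_neg]
    intro h5
    exact hw (hv w h5)
  · intro h5
    exact absurd h4 h5

/-- If the fibre of the monomial `m₁` of degree at least `n` is `{m₁, m₂}` and `m₁`, `m₂` have no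
common variable, then every generating set of the toric ideal contains an element of degree at
least `n`. -/
theorem exists_degree {m₁ m₂ : Matching G →₀ ℕ} {n : ℕ} (h12 : img m₁ = img m₂) (hne : m₁ ≠ m₂)
    (hfib : ∀ w : Matching G →₀ ℕ, img w = img m₁ → w = m₁ ∨ w = m₂)
    (hcop : ∀ M, m₁ M = 0 ∨ m₂ M = 0) (hdeg : n ≤ ∑ i ∈ m₁.support, m₁ i)
    (S : Set (MvPolynomial (Matching G) K)) (hS : Ideal.span S = toricIdeal K G) :
    ∃ f ∈ S, n ≤ f.totalDegree := by
  classical
  by_contra hcon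
  push Not at hcon
  have key : ∀ g ∈ Ideal.span S, ∀ h, coeff m₁ (h * g) = 0 := by
    intro g hg
    refine Submodule.span_induction (p := fun g _ => ∀ h, coeff m₁ (h * g) = 0) ?_ ?_ ?_ ?_ hg
    · intro f hf h
      have hfI : f ∈ toricIdeal K G := by
        rw [← hS]
        exact Ideal.subset_span hf
      rw [coeff_mul]
      apply Finset.sum_eq_zero
      rintro ⟨u, v⟩ huv
      have huv' : u + v = m₁ := by simpa using huv
      have h0 : coeff v f = 0 := by
        by_cases hu : u = 0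
        · subst hu
          rw [zero_add] at huv'
          subst huv'
          exact coeff_eq_zero_of_totalDegree_lt (lt_of_lt_of_le (hcon f hf) hdeg)
        · apply coeff_eq_zero hfI
          intro w hw
          have h1 : img (u + w) = img m₁ := by
            rw [← huv', map_add, map_add, hw]
          rcases hfib _ h1 with h2 | h2
          · rw [← huv'] at h2
            exact add_left_cancel h2
          · exfalso
            apply hu
            ext M
            rcases hcop M with h3 | h3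
            · rw [← huv'] at h3
              simp only [Finsupp.coe_add, Pi.add_apply] at h3
              simp only [Finsupp.coe_zero, Pi.zero_apply]
              omega
            · rw [← h2] at h3
              simp only [Finsupp.coe_add, Pi.add_apply] at h3
              simp only [Finsupp.coe_zero, Pi.zero_apply]
              omega
      show coeff u h * coeff v f = 0
      rw [h0, mul_zero]
    · intro h
      rw [mul_zero, coeff_zero]
    · intro x y _ _ hx hy h
      rw [mul_add, coeff_add, hx, hy, add_zero]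
    · intro a x _ hx h
      rw [smul_eq_mul, ← mul_assoc]
      exact hx _
  have hmem : (monomial m₁ 1 - monomial m₂ 1 : MvPolynomial (Matching G) K) ∈ Ideal.span S := by
    rw [hS]
    show toricMap K G _ = 0
    rw [map_sub, map_monomial, map_monomial, h12, sub_self]
  have h1 := key _ hmem 1
  rw [one_mul, coeff_sub, coeff_monomial, coeff_monomial, if_pos rfl, if_neg hne.symm, sub_zero]
    at h1
  exact one_ne_zero h1

lemma img_apply (w : Matching G →₀ ℕ) (a : Option (Sym2 V)) :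
    img w a = w.sum fun M k => k * vec M a := by
  rw [img, Finsupp.linearCombination_apply, Finsupp.sum_apply]
  apply Finsupp.sum_congr
  intro M _
  simp

lemma vec_none (M : Matching G) : vec M none = 1 := by
  simp [vec]

lemma vec_some [DecidableEq V] (M : Matching G) (e : Sym2 V) :
    vec M (some e) = if e ∈ M.1 then 1 else 0 := by
  simp [vec, Finsupp.single_apply]

end general

/-! ### The graph -/

/-- The edges of the graph. -/
def edges : Finset (Sym2 (Fin 10)) :=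
  {s(0, 3), s(0, 8), s(0, 9), s(1, 2), s(1, 4), s(1, 5), s(1, 9), s(2, 3), s(2, 7), s(3, 4),
    s(4, 5), s(4, 6), s(5, 8), s(6, 7), s(6, 9), s(7, 8)}

/-- The graph with 10 vertices and 16 edges. -/
def graph : SimpleGraph (Fin 10) := SimpleGraph.fromEdgeSet (edges : Set (Sym2 (Fin 10)))

/-- Its perfect matchings. -/
def pm : Fin 8 → Finset (Sym2 (Fin 10))
  | 0 => {s(0, 3), s(1, 2), s(4, 5), s(6, 9), s(7, 8)}
  | 1 => {s(0, 3), s(1, 4), s(2, 7), s(5, 8), s(6, 9)}
  | 2 => {s(0, 3), s(1, 9), s(2, 7), s(4, 6), s(5, 8)}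
  | 3 => {s(0, 8), s(1, 5), s(2, 7), s(3, 4), s(6, 9)}
  | 4 => {s(0, 8), s(1, 9), s(2, 3), s(4, 5), s(6, 7)}
  | 5 => {s(0, 9), s(1, 2), s(3, 4), s(5, 8), s(6, 7)}
  | 6 => {s(0, 9), s(1, 4), s(2, 3), s(5, 8), s(6, 7)}
  | 7 => {s(0, 9), s(1, 5), s(2, 3), s(4, 6), s(7, 8)}

lemma mem_edgeSet (e : Sym2 (Fin 10)) : e ∈ graph.edgeSet ↔ e ∈ edges := by
  unfold graph
  rw [SimpleGraph.edgeSet_fromEdgeSet]
  constructor
  · intro h
    exact Finset.mem_coe.1 h.1
  · intro h
    refine ⟨Finset.mem_coe.2 h, ?_⟩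
    have : ∀ e ∈ edges, ¬ e.IsDiag := by decide
    exact this e h

lemma pm_sub : ∀ j, pm j ⊆ edges := by decide

set_option maxRecDepth 100000 in
lemma pm_disj : ∀ j, ∀ e ∈ pm j, ∀ f ∈ pm j, e ≠ f → ∀ v : Fin 10, ¬ (v ∈ e ∧ v ∈ f) := by
  decide

lemma pm_inj : Function.Injective pm := by
  have h : ∀ i j, pm i = pm j → i = j := by decide
  exact fun _ _ hij => h _ _ hij

/-- The perfect matchings as matchings. -/
def Pm (j : Fin 8) : Matching graph :=
  ⟨pm j, fun e he => (mem_edgeSet e).2 (pm_sub j he), pm_disj j⟩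

lemma Pm_inj : Function.Injective Pm := fun i j h => pm_inj (congrArg Subtype.val h)


/-- The edges in a fixed order. -/
def E : Fin 16 → Sym2 (Fin 10) :=
  ![s(0, 3), s(0, 8), s(0, 9), s(1, 2), s(1, 4), s(1, 5), s(1, 9), s(2, 3), s(2, 7), s(3, 4),
    s(4, 5), s(4, 6), s(5, 8), s(6, 7), s(6, 9), s(7, 8)]

lemma mem_edges (e : Sym2 (Fin 10)) (he : e ∈ edges) : ∃ i, e = E i := by
  have h : ∀ e ∈ edges, ∃ i, e = E i := by decide
  exact h e he

/-- The incidence vectors of the perfect matchings. -/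
def tab : Fin 8 → Fin 16 → ℕ :=
  ![![1, 0, 0, 1, 0, 0, 0, 0, 0, 0, 1, 0, 0, 0, 1, 1],
    ![1, 0, 0, 0, 1, 0, 0, 0, 1, 0, 0, 0, 1, 0, 1, 0],
    ![1, 0, 0, 0, 0, 0, 1, 0, 1, 0, 0, 1, 1, 0, 0, 0],
    ![0, 1, 0, 0, 0, 1, 0, 0, 1, 1, 0, 0, 0, 0, 1, 0],
    ![0, 1, 0, 0, 0, 0, 1, 1, 0, 0, 1, 0, 0, 1, 0, 0],
    ![0, 0, 1, 1, 0, 0, 0, 0, 0, 1, 0, 0, 1, 1, 0, 0],
    ![0, 0, 1, 0, 1, 0, 0, 1, 0, 0, 0, 0, 1, 1, 0, 0],
    ![0, 0, 1, 0, 0, 1, 0, 1, 0, 0, 0, 1, 0, 0, 0, 1]]

set_option maxRecDepth 100000 in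
lemma tab_eq : ∀ j i, tab j i = if E i ∈ pm j then 1 else 0 := by decide

/-- In a matching that covers the vertex `v` exactly one edge at `v` occurs. -/
lemma deg_one {M : Finset (Sym2 (Fin 10))} (hM : IsMatching graph M) {v : Fin 10}
    (hv : ∃ e ∈ M, v ∈ e) :
    ∑ e ∈ edges.filter (fun e => v ∈ e), (if e ∈ M then 1 else 0) = 1 := by
  rw [Finset.sum_boole, Nat.cast_id, Finset.card_eq_one]
  obtain ⟨e, heM, hve⟩ := hv
  refine ⟨e, ?_⟩
  ext f
  rw [Finset.mem_filter, Finset.mem_filter, Finset.mem_singleton]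
  constructor
  · rintro ⟨⟨-, hvf⟩, hfM⟩
    by_contra hne
    exact hM.2 f hfM e heM hne v ⟨hvf, hve⟩
  · rintro rfl
    exact ⟨⟨(mem_edgeSet f).1 (hM.1 f heM), hve⟩, heM⟩

set_option maxHeartbeats 4000000 in
/-- The solutions of the system of equations for a perfect matching. -/
lemma num (X : Fin 16 → ℕ)
    (d0 : X 0 + (X 1 + X 2) = 1)
    (d1 : X 3 + (X 4 + (X 5 + X 6)) = 1)
    (d2 : X 3 + (X 7 + X 8) = 1)
    (d3 : X 0 + (X 7 + X 9) = 1)
    (d4 : X 4 + (X 9 + (X 10 + X 11)) = 1)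
    (d5 : X 5 + (X 10 + X 12) = 1)
    (d6 : X 11 + (X 13 + X 14) = 1)
    (d7 : X 8 + (X 13 + X 15) = 1)
    (d8 : X 1 + (X 12 + X 15) = 1)
    (d9 : X 2 + (X 6 + X 14) = 1) :
    ∃ j, ∀ i, X i = tab j i := by
  have h0 : X 0 = 1 ∨ X 1 = 1 ∨ X 2 = 1 := by omega
  have h1 : X 3 = 1 ∨ X 4 = 1 ∨ X 5 = 1 ∨ X 6 = 1 := by omega
  rcases h0 with h0 | h0 | h0 <;> rcases h1 with h1 | h1 | h1 | h1
  · have hx : X 0 = 1 ∧ X 1 = 0 ∧ X 2 = 0 ∧ X 3 = 1 ∧ X 4 = 0 ∧ X 5 = 0 ∧ X 6 = 0 ∧ X 7 = 0 ∧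
        X 8 = 0 ∧ X 9 = 0 ∧ X 10 = 1 ∧ X 11 = 0 ∧ X 12 = 0 ∧ X 13 = 0 ∧ X 14 = 1 ∧ X 15 = 1 := by
      omega
    obtain ⟨x0, x1, x2, x3, x4, x5, x6, x7, x8, x9, x10, x11, x12, x13, x14, x15⟩ := hx
    refine ⟨0, fun i => ?_⟩
    fin_cases i
    exacts [x0, x1, x2, x3, x4, x5, x6, x7, x8, x9, x10, x11, x12, x13, x14, x15]
  · have hx : X 0 = 1 ∧ X 1 = 0 ∧ X 2 = 0 ∧ X 3 = 0 ∧ X 4 = 1 ∧ X 5 = 0 ∧ X 6 = 0 ∧ X 7 = 0 ∧
        X 8 = 1 ∧ X 9 = 0 ∧ X 10 = 0 ∧ X 11 = 0 ∧ X 12 = 1 ∧ X 13 = 0 ∧ X 14 = 1 ∧ X 15 = 0 := by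
      omega
    obtain ⟨x0, x1, x2, x3, x4, x5, x6, x7, x8, x9, x10, x11, x12, x13, x14, x15⟩ := hx
    refine ⟨1, fun i => ?_⟩
    fin_cases i
    exacts [x0, x1, x2, x3, x4, x5, x6, x7, x8, x9, x10, x11, x12, x13, x14, x15]
  · exfalso
    omega
  · have hx : X 0 = 1 ∧ X 1 = 0 ∧ X 2 = 0 ∧ X 3 = 0 ∧ X 4 = 0 ∧ X 5 = 0 ∧ X 6 = 1 ∧ X 7 = 0 ∧
        X 8 = 1 ∧ X 9 = 0 ∧ X 10 = 0 ∧ X 11 = 1 ∧ X 12 = 1 ∧ X 13 = 0 ∧ X 14 = 0 ∧ X 15 = 0 := by
      omega
    obtain ⟨x0, x1, x2, x3, x4, x5, x6, x7, x8, x9, x10, x11, x12, x13, x14, x15⟩ := hx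
    refine ⟨2, fun i => ?_⟩
    fin_cases i
    exacts [x0, x1, x2, x3, x4, x5, x6, x7, x8, x9, x10, x11, x12, x13, x14, x15]
  · exfalso
    omega
  · exfalso
    omega
  · have hx : X 0 = 0 ∧ X 1 = 1 ∧ X 2 = 0 ∧ X 3 = 0 ∧ X 4 = 0 ∧ X 5 = 1 ∧ X 6 = 0 ∧ X 7 = 0 ∧
        X 8 = 1 ∧ X 9 = 1 ∧ X 10 = 0 ∧ X 11 = 0 ∧ X 12 = 0 ∧ X 13 = 0 ∧ X 14 = 1 ∧ X 15 = 0 := by
      omega
    obtain ⟨x0, x1, x2, x3, x4, x5, x6, x7, x8, x9, x10, x11, x12, x13, x14, x15⟩ := hx
    refine ⟨3, fun i => ?_⟩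
    fin_cases i
    exacts [x0, x1, x2, x3, x4, x5, x6, x7, x8, x9, x10, x11, x12, x13, x14, x15]
  · have hx : X 0 = 0 ∧ X 1 = 1 ∧ X 2 = 0 ∧ X 3 = 0 ∧ X 4 = 0 ∧ X 5 = 0 ∧ X 6 = 1 ∧ X 7 = 1 ∧
        X 8 = 0 ∧ X 9 = 0 ∧ X 10 = 1 ∧ X 11 = 0 ∧ X 12 = 0 ∧ X 13 = 1 ∧ X 14 = 0 ∧ X 15 = 0 := by
      omega
    obtain ⟨x0, x1, x2, x3, x4, x5, x6, x7, x8, x9, x10, x11, x12, x13, x14, x15⟩ := hx
    refine ⟨4, fun i => ?_⟩
    fin_cases i
    exacts [x0, x1, x2, x3, x4, x5, x6, x7, x8, x9, x10, x11, x12, x13, x14, x15]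
  · have hx : X 0 = 0 ∧ X 1 = 0 ∧ X 2 = 1 ∧ X 3 = 1 ∧ X 4 = 0 ∧ X 5 = 0 ∧ X 6 = 0 ∧ X 7 = 0 ∧
        X 8 = 0 ∧ X 9 = 1 ∧ X 10 = 0 ∧ X 11 = 0 ∧ X 12 = 1 ∧ X 13 = 1 ∧ X 14 = 0 ∧ X 15 = 0 := by
      omega
    obtain ⟨x0, x1, x2, x3, x4, x5, x6, x7, x8, x9, x10, x11, x12, x13, x14, x15⟩ := hx
    refine ⟨5, fun i => ?_⟩
    fin_cases i
    exacts [x0, x1, x2, x3, x4, x5, x6, x7, x8, x9, x10, x11, x12, x13, x14, x15]
  · have hx : X 0 = 0 ∧ X 1 = 0 ∧ X 2 = 1 ∧ X 3 = 0 ∧ X 4 = 1 ∧ X 5 = 0 ∧ X 6 = 0 ∧ X 7 = 1 ∧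
        X 8 = 0 ∧ X 9 = 0 ∧ X 10 = 0 ∧ X 11 = 0 ∧ X 12 = 1 ∧ X 13 = 1 ∧ X 14 = 0 ∧ X 15 = 0 := by
      omega
    obtain ⟨x0, x1, x2, x3, x4, x5, x6, x7, x8, x9, x10, x11, x12, x13, x14, x15⟩ := hx
    refine ⟨6, fun i => ?_⟩
    fin_cases i
    exacts [x0, x1, x2, x3, x4, x5, x6, x7, x8, x9, x10, x11, x12, x13, x14, x15]
  · have hx : X 0 = 0 ∧ X 1 = 0 ∧ X 2 = 1 ∧ X 3 = 0 ∧ X 4 = 0 ∧ X 5 = 1 ∧ X 6 = 0 ∧ X 7 = 1 ∧
        X 8 = 0 ∧ X 9 = 0 ∧ X 10 = 0 ∧ X 11 = 1 ∧ X 12 = 0 ∧ X 13 = 0 ∧ X 14 = 0 ∧ X 15 = 1 := by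
      omega
    obtain ⟨x0, x1, x2, x3, x4, x5, x6, x7, x8, x9, x10, x11, x12, x13, x14, x15⟩ := hx
    refine ⟨7, fun i => ?_⟩
    fin_cases i
    exacts [x0, x1, x2, x3, x4, x5, x6, x7, x8, x9, x10, x11, x12, x13, x14, x15]
  · exfalso
    omega

/-- A matching that covers all vertices is one of the eight perfect matchings. -/
lemma eq_pm {M : Finset (Sym2 (Fin 10))} (hM : IsMatching graph M)
    (hc : ∀ v : Fin 10, ∃ e ∈ M, v ∈ e) : ∃ j, M = pm j := by
  have key : ∃ j, ∀ i, (if E i ∈ M then 1 else 0) = tab j i := by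
    apply num (fun i : Fin 16 => if E i ∈ M then 1 else 0)
    · have d := deg_one hM (hc 0)
      rwa [show edges.filter (fun e => (0 : Fin 10) ∈ e) = {E 0, E 1, E 2} by decide,
        Finset.sum_insert (by decide), Finset.sum_insert (by decide), Finset.sum_singleton] at d
    · have d := deg_one hM (hc 1)
      rwa [show edges.filter (fun e => (1 : Fin 10) ∈ e) = {E 3, E 4, E 5, E 6} by decide,
        Finset.sum_insert (by decide), Finset.sum_insert (by decide), Finset.sum_insert (by decide), Finset.sum_singleton] at d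
    · have d := deg_one hM (hc 2)
      rwa [show edges.filter (fun e => (2 : Fin 10) ∈ e) = {E 3, E 7, E 8} by decide,
        Finset.sum_insert (by decide), Finset.sum_insert (by decide), Finset.sum_singleton] at d
    · have d := deg_one hM (hc 3)
      rwa [show edges.filter (fun e => (3 : Fin 10) ∈ e) = {E 0, E 7, E 9} by decide,
        Finset.sum_insert (by decide), Finset.sum_insert (by decide), Finset.sum_singleton] at d
    · have d := deg_one hM (hc 4)
      rwa [show edges.filter (fun e => (4 : Fin 10) ∈ e) = {E 4, E 9, E 10, E 11} by decide,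
        Finset.sum_insert (by decide), Finset.sum_insert (by decide), Finset.sum_insert (by decide), Finset.sum_singleton] at d
    · have d := deg_one hM (hc 5)
      rwa [show edges.filter (fun e => (5 : Fin 10) ∈ e) = {E 5, E 10, E 12} by decide,
        Finset.sum_insert (by decide), Finset.sum_insert (by decide), Finset.sum_singleton] at d
    · have d := deg_one hM (hc 6)
      rwa [show edges.filter (fun e => (6 : Fin 10) ∈ e) = {E 11, E 13, E 14} by decide,
        Finset.sum_insert (by decide), Finset.sum_insert (by decide), Finset.sum_singleton] at d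
    · have d := deg_one hM (hc 7)
      rwa [show edges.filter (fun e => (7 : Fin 10) ∈ e) = {E 8, E 13, E 15} by decide,
        Finset.sum_insert (by decide), Finset.sum_insert (by decide), Finset.sum_singleton] at d
    · have d := deg_one hM (hc 8)
      rwa [show edges.filter (fun e => (8 : Fin 10) ∈ e) = {E 1, E 12, E 15} by decide,
        Finset.sum_insert (by decide), Finset.sum_insert (by decide), Finset.sum_singleton] at d
    · have d := deg_one hM (hc 9)
      rwa [show edges.filter (fun e => (9 : Fin 10) ∈ e) = {E 2, E 6, E 14} by decide,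
        Finset.sum_insert (by decide), Finset.sum_insert (by decide), Finset.sum_singleton] at d
  obtain ⟨j, hj⟩ := key
  refine ⟨j, ?_⟩
  ext e
  constructor
  · intro he
    obtain ⟨i, rfl⟩ := mem_edges e ((mem_edgeSet e).1 (hM.1 e he))
    have h := hj i
    rw [if_pos he, tab_eq] at h
    by_contra h'
    rw [if_neg h'] at h
    exact one_ne_zero h
  · intro he
    obtain ⟨i, rfl⟩ := mem_edges e (pm_sub j he)
    have h := hj i
    rw [tab_eq, if_pos he] at h
    by_contra h'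
    rw [if_neg h'] at h
    exact zero_ne_one h

/-! ### The fibre -/

lemma cov_zero {M : Finset (Sym2 (Fin 10))} {v : Fin 10} (hv : ¬ ∃ e ∈ M, v ∈ e) :
    ∑ e ∈ edges.filter (fun e => v ∈ e), (if e ∈ M then 1 else 0) = 0 := by
  apply Finset.sum_eq_zero
  intro e he
  rw [if_neg]
  intro heM
  exact hv ⟨e, heM, (Finset.mem_filter.1 he).2⟩

lemma cov_le {M : Finset (Sym2 (Fin 10))} (hM : IsMatching graph M) (v : Fin 10) :
    ∑ e ∈ edges.filter (fun e => v ∈ e), (if e ∈ M then 1 else 0) ≤ 1 := by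
  by_cases hv : ∃ e ∈ M, v ∈ e
  · rw [deg_one hM hv]
  · rw [cov_zero hv]
    exact Nat.zero_le _

/-- The monomial `∏ x_(Pm j) ^ c j`. -/
noncomputable def mon (c : Fin 8 → ℕ) : Matching graph →₀ ℕ :=
  ∑ j, Finsupp.single (Pm j) (c j)

lemma mon_Pm (c : Fin 8 → ℕ) (j : Fin 8) : mon c (Pm j) = c j := by
  classical
  rw [mon, Finsupp.finsetSum_apply, Finset.sum_eq_single j]
  · rw [Finsupp.single_eq_same]
  · intro i _ hi
    rw [Finsupp.single_eq_of_ne]
    intro h
    exact hi (Pm_inj h.symm)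
  · intro h
    exact absurd (Finset.mem_univ j) h

lemma mon_other (c : Fin 8 → ℕ) {M : Matching graph} (h : ∀ j, M ≠ Pm j) : mon c M = 0 := by
  classical
  rw [mon, Finsupp.finsetSum_apply]
  apply Finset.sum_eq_zero
  intro j _
  rw [Finsupp.single_eq_of_ne (h j)]

lemma img_of_Pm {w : Matching graph →₀ ℕ} (hw : ∀ M, (∀ j, M ≠ Pm j) → w M = 0)
    (a : Option (Sym2 (Fin 10))) : img w a = ∑ j, w (Pm j) * vec (Pm j) a := by
  classical
  rw [img_apply, Finsupp.sum_of_support_subset w (s := Finset.univ.image Pm), Finset.sum_image]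
  · intro i _ j _ h
    exact Pm_inj h
  · intro M hM
    rw [Finset.mem_image]
    by_contra h
    apply Finsupp.mem_support_iff.1 hM
    apply hw
    intro j hj
    exact h ⟨j, Finset.mem_univ j, hj.symm⟩
  · intro M _
    rw [zero_mul]

/-- The exponents of the first monomial. -/
def c₁ : Fin 8 → ℕ := ![1, 0, 1, 1, 0, 0, 2, 0]

/-- The exponents of the second monomial. -/
def c₂ : Fin 8 → ℕ := ![0, 2, 0, 0, 1, 1, 0, 1]

lemma img_mon (c : Fin 8 → ℕ) (a : Option (Sym2 (Fin 10))) :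
    img (mon c) a = ∑ j, c j * vec (Pm j) a := by
  rw [img_of_Pm (fun M h => mon_other c h)]
  simp only [mon_Pm]

lemma vec_E (j : Fin 8) (i : Fin 16) : vec (Pm j) (some (E i)) = tab j i := by
  rw [vec_some, tab_eq]
  rfl

lemma vec_other (j : Fin 8) {e : Sym2 (Fin 10)} (he : e ∉ edges) : vec (Pm j) (some e) = 0 := by
  rw [vec_some, if_neg]
  intro h
  exact he (pm_sub j h)

lemma img_eq : img (mon c₁) = img (mon c₂) := by
  ext a
  rw [img_mon, img_mon]
  rcases a with _ | e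
  · simp only [vec_none]
    decide
  · by_cases he : e ∈ edges
    · obtain ⟨i, rfl⟩ := mem_edges e he
      simp only [vec_E]
      revert i
      decide
    · simp only [vec_other _ he, mul_zero]

/-- The fibre of the first monomial. -/
lemma fibre (w : Matching graph →₀ ℕ) (hw : img w = img (mon c₁)) : w = mon c₁ ∨ w = mon c₂ := by
  classical
  have hnone : ∑ M ∈ w.support, w M = 5 := by
    have h := congrArg (fun f => f none) hw
    simp only [img_apply w, img_mon, vec_none, mul_one, Finsupp.sum] at h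
    rw [h]
    decide
  have hcov : ∀ v : Fin 10, ∑ M ∈ w.support, w M *
      (∑ e ∈ edges.filter (fun e => v ∈ e), (if e ∈ M.1 then 1 else 0)) = 5 := by
    intro v
    have h1 : ∑ e ∈ edges.filter (fun e => v ∈ e), img w (some e) = 5 := by
      rw [hw]
      simp only [img_mon, vec_some]
      revert v
      decide
    rw [← h1]
    simp only [img_apply w, vec_some, Finsupp.sum, Finset.mul_sum]
    rw [Finset.sum_comm]
  have hall : ∀ M : Matching graph, (∀ j, M ≠ Pm j) → w M = 0 := by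
    intro M hM
    by_contra h0
    have hc : ∀ v : Fin 10, ∃ e ∈ M.1, v ∈ e := by
      intro v
      by_contra hv
      have h1 : ∑ M ∈ w.support, w M *
          (∑ e ∈ edges.filter (fun e => v ∈ e), (if e ∈ M.1 then 1 else 0)) <
          ∑ M ∈ w.support, w M := by
        apply Finset.sum_lt_sum
        · intro N _
          calc _ ≤ w N * 1 := Nat.mul_le_mul_left _ (cov_le N.2 v)
            _ = w N := mul_one _
        · refine ⟨M, Finsupp.mem_support_iff.2 h0, ?_⟩
          rw [cov_zero hv, mul_zero]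
          exact Nat.pos_of_ne_zero h0
      rw [hcov v, hnone] at h1
      exact lt_irrefl _ h1
    obtain ⟨j, hj⟩ := eq_pm M.2 hc
    exact hM j (Subtype.ext hj)
  have heq : ∀ i : Fin 16, ∑ j, w (Pm j) * tab j i = ∑ j, c₁ j * tab j i := by
    intro i
    have h := congrArg (fun f => f (some (E i))) hw
    simp only [img_of_Pm hall, img_mon, vec_E] at h
    exact h
  have hval : (∀ j, w (Pm j) = c₁ j) ∨ (∀ j, w (Pm j) = c₂ j) := by
    have e0 := heq 0
    have e1 := heq 1
    have e2 := heq 2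
    have e3 := heq 3
    have e4 := heq 4
    have e5 := heq 5
    have e6 := heq 6
    have e7 := heq 7
    have e9 := heq 9
    have e10 := heq 10
    simp only [Fin.sum_univ_eight, tab, c₁] at e0 e1 e2 e3 e4 e5 e6 e7 e9 e10
    simp at e0 e1 e2 e3 e4 e5 e6 e7 e9 e10
    have h : (w (Pm 0) = 1 ∧ w (Pm 1) = 0 ∧ w (Pm 2) = 1 ∧ w (Pm 3) = 1 ∧ w (Pm 4) = 0 ∧
        w (Pm 5) = 0 ∧ w (Pm 6) = 2 ∧ w (Pm 7) = 0) ∨
        (w (Pm 0) = 0 ∧ w (Pm 1) = 2 ∧ w (Pm 2) = 0 ∧ w (Pm 3) = 0 ∧ w (Pm 4) = 1 ∧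
        w (Pm 5) = 1 ∧ w (Pm 6) = 0 ∧ w (Pm 7) = 1) := by
      omega
    rcases h with ⟨h0, h1, h2, h3, h4, h5, h6, h7⟩ | ⟨h0, h1, h2, h3, h4, h5, h6, h7⟩
    · left
      intro j
      fin_cases j
      exacts [h0, h1, h2, h3, h4, h5, h6, h7]
    · right
      intro j
      fin_cases j
      exacts [h0, h1, h2, h3, h4, h5, h6, h7]
  have hext : ∀ c : Fin 8 → ℕ, (∀ j, w (Pm j) = c j) → w = mon c := by
    intro c hc
    ext M
    by_cases hM : ∃ j, M = Pm j
    · obtain ⟨j, rfl⟩ := hM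
      rw [hc j, mon_Pm]
    · push Not at hM
      rw [hall M hM, mon_other c hM]
  rcases hval with h | h
  · exact Or.inl (hext _ h)
  · exact Or.inr (hext _ h)

/-- **Main theorem.** There is a graph on 10 vertices such that for every field `K` every generating
set of the toric ideal of its matching polytope contains a polynomial of degree at least 5. -/
theorem result : ∃ G : SimpleGraph (Fin 10), ∀ (K : Type u) [Field K]
    (S : Set (MvPolynomial (Matching G) K)), Ideal.span S = toricIdeal K G →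
      ∃ f ∈ S, 5 ≤ f.totalDegree := by
  classical
  refine ⟨graph, fun K _ S hS => ?_⟩
  refine exists_degree (m₁ := mon c₁) (m₂ := mon c₂) img_eq ?_ fibre ?_ ?_ S hS
  · intro h
    have h1 := congrArg (fun f => f (Pm 0)) h
    simp only [mon_Pm] at h1
    revert h1
    decide
  · intro M
    by_cases hM : ∃ j, M = Pm j
    · obtain ⟨j, rfl⟩ := hM
      rw [mon_Pm, mon_Pm]
      revert j
      decide
    · push Not at hM
      exact Or.inl (mon_other _ hM)
  · have h1 : img (mon c₁) none = ∑ i ∈ (mon c₁).support, mon c₁ i := by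
      simp only [img_apply, vec_none, mul_one, Finsupp.sum]
    rw [← h1, img_mon]
    simp only [vec_none]
    decide

end Pool.Agent.Results.MP_2a9801_co.DegreeFive
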